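import Mathlib
import Pool.Agent.V1199.Weak

open Set Filter Topology
open scoped RealInnerProductSpace ENNReal

namespace Pool.Agent.Results.MP_c12391_an.ZeroApep

/-- The slice `S(C, f, α)`. -/
def slice {X : Type*} [NormedAddCommGroup X] [NormedSpace ℝ X] (C : Set X)
    (f : StrongDual ℝ X) (α : ℝ) : Set X :=
  {x | x ∈ C ∧ sSup (f '' C) - α < f x}

/-- `x₀` is an almost preserved extreme point of `C`: every relatively weakly open subset of `C`
containing `x₀` contains a nonempty slice of `C`. -/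
def IsAPEP {X : Type*} [NormedAddCommGroup X] [NormedSpace ℝ X] (C : Set X) (x₀ : X) : Prop :=
  x₀ ∈ C ∧ ∀ U : Set (WeakSpace ℝ X), IsOpen U → toWeakSpace ℝ X x₀ ∈ U →
    ∃ (f : StrongDual ℝ X) (α : ℝ), 0 < α ∧ (slice C f α).Nonempty ∧
      slice C f α ⊆ {x | x ∈ C ∧ toWeakSpace ℝ X x ∈ U}

/-- The factors: Euclidean spaces of dimension `n + 1`. -/
abbrev E (n : ℕ) : Type := EuclideanSpace ℝ (Fin (n + 1))

theorem not_apep (n : ℕ) : ¬ IsAPEP (Metric.closedBall (0 : E n) 1) 0 := by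
  rintro ⟨_, h⟩
  let c : Fin (n + 1) → StrongDual ℝ (E n) := fun i => EuclideanSpace.proj i
  let U : Set (WeakSpace ℝ (E n)) :=
    ⋂ i : Fin (n + 1), {y | |c i ((toWeakSpace ℝ (E n)).symm y)| < 1 / (n + 1)}
  have hU : IsOpen U := by
    refine isOpen_iInter_of_finite (fun i => isOpen_lt ?_ continuous_const)
    exact (V1199.weak_continuous (c i)).abs
  have h0 : toWeakSpace ℝ (E n) 0 ∈ U := by
    simp only [U, mem_iInter]
    intro i
    simp
    positivity
  obtain ⟨f, α, hα, _, hsub⟩ := h U hU h0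
  -- a norm one point in the slice
  have hu : ∃ u : E n, ‖u‖ = 1 ∧ u ∈ slice (Metric.closedBall (0 : E n) 1) f α := by
    obtain ⟨g, hg⟩ : ∃ g : E n, ∀ x, f x = ⟪g, x⟫ := by
      refine ⟨(InnerProductSpace.toDual ℝ (E n)).symm f, fun x => ?_⟩
      rw [InnerProductSpace.toDual_symm_apply]
    have hsup : sSup (f '' (Metric.closedBall (0 : E n) 1)) ≤ ‖g‖ := by
      refine csSup_le ⟨_, ⟨0, by simp, rfl⟩⟩ ?_
      rintro _ ⟨x, hx, rfl⟩
      rw [mem_closedBall_zero_iff] at hx
      rw [hg]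
      calc ⟪g, x⟫ ≤ ‖g‖ * ‖x‖ := real_inner_le_norm _ _
        _ ≤ ‖g‖ * 1 := by gcongr
        _ = ‖g‖ := mul_one _
    by_cases hg0 : g = 0
    · refine ⟨EuclideanSpace.single 0 1, by simp, by simp, ?_⟩
      rw [hg, hg0]
      rw [hg0, norm_zero] at hsup
      simp only [inner_zero_left]
      linarith
    · have hgn : ‖g‖ ≠ 0 := norm_ne_zero_iff.mpr hg0
      refine ⟨(‖g‖⁻¹ : ℝ) • g, ?_, ?_, ?_⟩
      · rw [norm_smul, norm_inv, norm_norm, inv_mul_cancel₀ hgn]
      · rw [mem_closedBall_zero_iff, norm_smul, norm_inv, norm_norm, inv_mul_cancel₀ hgn]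
      · rw [hg, real_inner_smul_right, real_inner_self_eq_norm_sq]
        have : ‖g‖⁻¹ * ‖g‖ ^ 2 = ‖g‖ := by field_simp
        rw [this]
        linarith
  obtain ⟨u, hu1, hu2⟩ := hu
  have hu3 := (hsub hu2).2
  simp only [U, mem_iInter] at hu3
  have hu4 : ∀ i, ‖u i‖ < 1 / (n + 1) := by
    intro i
    have := hu3 i
    simpa [c] using this
  have hsq : ‖u‖ ^ 2 = ∑ i, ‖u i‖ ^ 2 := EuclideanSpace.norm_sq_eq u
  have hlt : ∑ i, ‖u i‖ ^ 2 < ∑ i : Fin (n + 1), (1 / ((n : ℝ) + 1)) := by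
    refine Finset.sum_lt_sum_of_nonempty Finset.univ_nonempty (fun i _ => ?_)
    have h1 := hu4 i
    have h2 := norm_nonneg (u i)
    have h3 : (1 : ℝ) / (n + 1) ≤ 1 := by
      rw [div_le_one (by positivity)]
      linarith [(Nat.cast_nonneg n : (0 : ℝ) ≤ n)]
    nlinarith
  rw [← hsq, hu1] at hlt
  simp at hlt
  have : ((n : ℝ) + 1) * ((n : ℝ) + 1)⁻¹ = 1 := by
    have : ((n : ℝ) + 1) ≠ 0 := by positivity
    field_simp
  linarith

/-- The evaluation at the `n`-th coordinate, as a bounded operator. -/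
noncomputable def ev (n : ℕ) : lp E 1 →L[ℝ] E n :=
  LinearMap.mkContinuous
    { toFun := fun x => x n
      map_add' := fun x y => by simp
      map_smul' := fun c x => by simp } 1
    (fun x => by simpa using lp.norm_apply_le_norm (by norm_num) x n)

theorem ev_apply (n : ℕ) (x : lp E 1) : ev n x = x n := rfl

/-- The inclusion of the `n`-th coordinate. -/
noncomputable def inc (n : ℕ) : E n →L[ℝ] lp E 1 :=
  LinearMap.mkContinuous
    { toFun := fun x => lp.single 1 n x
      map_add' := fun x y => by simp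
      map_smul' := fun c x => by simp } 1
    (fun x => by simp)

theorem inc_norm (n : ℕ) (x : E n) : ‖inc n x‖ = ‖x‖ := by
  show ‖lp.single 1 n x‖ = ‖x‖
  simp

theorem split_norm (n : ℕ) (x : lp E 1) : ‖x - inc n (ev n x)‖ = ‖x‖ - ‖ev n x‖ := by
  have h := lp.norm_sub_norm_compl_sub_single (p := 1) (by norm_num) x {n}
  simp only [ENNReal.toReal_one, Real.rpow_one, Finset.sum_singleton] at h
  have : x - inc n (ev n x) = x - lp.single 1 n (x n) := rfl
  rw [this, ev_apply]
  linarith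

theorem apep : IsAPEP (Metric.closedBall (0 : lp E 1) 1) 0 := by
  refine ⟨by simp, fun U hU h0 => ?_⟩
  obtain ⟨F, ε, hε, hF⟩ := V1199.weak_basic hU h0
  -- choose a coordinate of large dimension and a unit vector killed by all `f ∈ F`
  set n : ℕ := F.card with hn
  obtain ⟨g, hg1, hg0⟩ : ∃ g : E n, ‖g‖ = 1 ∧ ∀ f ∈ F, f (inc n g) = 0 := by
    let L : E n →ₗ[ℝ] (F → ℝ) := LinearMap.pi (fun f => (f.1.comp (inc n)).toLinearMap)
    have hL : ¬ Function.Injective L := by
      intro hinj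
      have h1 := LinearMap.finrank_le_finrank_of_injective hinj
      simp [hn] at h1
    have hker : ∃ v : E n, v ≠ 0 ∧ L v = 0 := by
      by_contra hcon
      push Not at hcon
      apply hL
      rw [injective_iff_map_eq_zero]
      intro a ha
      by_contra hne
      exact hcon a hne ha
    obtain ⟨v, hv, hLv⟩ := hker
    have hvn : ‖v‖ ≠ 0 := norm_ne_zero_iff.mpr hv
    refine ⟨(‖v‖⁻¹ : ℝ) • v, by rw [norm_smul, norm_inv, norm_norm, inv_mul_cancel₀ hvn], ?_⟩
    intro f hf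
    have h2 : f (inc n v) = 0 := congrFun hLv ⟨f, hf⟩
    rw [map_smul, map_smul, h2, smul_zero]
  -- the functional
  let φ : StrongDual ℝ (lp E 1) := (innerSL ℝ g).comp (ev n)
  have hφ : ∀ x, φ x = ⟪g, ev n x⟫ := fun x => rfl
  have hbd : ∀ x ∈ Metric.closedBall (0 : lp E 1) 1, φ x ≤ 1 := by
    intro x hx
    rw [mem_closedBall_zero_iff] at hx
    rw [hφ]
    have h1 : ‖ev n x‖ ≤ ‖x‖ := by
      have := norm_nonneg (x - inc n (ev n x))
      rw [split_norm] at this
      linarith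
    calc ⟪g, ev n x⟫ ≤ ‖g‖ * ‖ev n x‖ := real_inner_le_norm _ _
      _ ≤ 1 := by rw [hg1, one_mul]; linarith
  have hevinc : ev n (inc n g) = g := by
    show (lp.single 1 n g) n = g
    simp
  have hsup : sSup (φ '' (Metric.closedBall (0 : lp E 1) 1)) = 1 := by
    apply le_antisymm
    · refine csSup_le ⟨_, ⟨0, by simp, rfl⟩⟩ ?_
      rintro _ ⟨x, hx, rfl⟩
      exact hbd x hx
    · refine le_csSup ⟨1, ?_⟩ ⟨inc n g, ?_, ?_⟩
      · rintro _ ⟨x, hx, rfl⟩
        exact hbd x hx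
      · rw [mem_closedBall_zero_iff, inc_norm, hg1]
      · rw [hφ, hevinc, real_inner_self_eq_norm_sq, hg1, one_pow]
  -- bound on the norms of the functionals
  set M : ℝ := 1 + ∑ f ∈ F, ‖f‖ with hM
  have hMpos : 0 < M := by
    have : 0 ≤ ∑ f ∈ F, ‖f‖ := Finset.sum_nonneg (fun _ _ => norm_nonneg _)
    linarith
  have hMf : ∀ f ∈ F, ‖f‖ ≤ M := by
    intro f hf
    have : ‖f‖ ≤ ∑ f ∈ F, ‖f‖ :=
      Finset.single_le_sum (f := fun f => ‖f‖) (fun _ _ => norm_nonneg _) hf
    linarith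
  set β : ℝ := min (ε / (4 * M)) 1 with hβ
  have hβ0 : 0 < β := lt_min (by positivity) one_pos
  have hβ1 : β ≤ 1 := min_le_right _ _
  have hβε : β ≤ ε / (4 * M) := min_le_left _ _
  refine ⟨φ, β ^ 2 / 2, by positivity, ⟨inc n g, ?_, ?_⟩, ?_⟩
  · rw [mem_closedBall_zero_iff, inc_norm, hg1]
  · rw [hsup, hφ, hevinc, real_inner_self_eq_norm_sq, hg1]
    have : 0 < β ^ 2 / 2 := by positivity
    linarith
  · rintro x ⟨hx, hx2⟩
    refine ⟨hx, hF x (fun f hf => ?_)⟩
    rw [hsup, hφ] at hx2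
    rw [mem_closedBall_zero_iff] at hx
    have h1 : ‖ev n x‖ ≤ 1 := by
      have := norm_nonneg (x - inc n (ev n x))
      rw [split_norm] at this
      linarith
    have h2 : ⟪g, ev n x⟫ ≤ ‖ev n x‖ := by
      have := real_inner_le_norm g (ev n x)
      rwa [hg1, one_mul] at this
    have h3 : ‖x - inc n (ev n x)‖ ≤ β := by
      rw [split_norm]
      nlinarith
    have h4 : ‖ev n x - g‖ ≤ β := by
      have h5 : ‖ev n x - g‖ ^ 2 = ‖ev n x‖ ^ 2 - 2 * ⟪ev n x, g⟫ + ‖g‖ ^ 2 :=
        norm_sub_sq_real _ _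
      rw [real_inner_comm] at h5
      have h6 : ‖ev n x - g‖ ^ 2 ≤ β ^ 2 := by
        rw [h5, hg1]
        have h7 : ‖ev n x‖ ^ 2 ≤ 1 := by
          have := norm_nonneg (ev n x)
          nlinarith
        nlinarith
      exact le_of_sq_le_sq h6 hβ0.le
    have h5 : f x - f 0 = f (x - inc n (ev n x)) + f (inc n (ev n x - g)) := by
      rw [map_zero, map_sub, map_sub, map_sub, hg0 f hf]
      ring
    rw [h5]
    have h6 : |f (x - inc n (ev n x))| ≤ M * β := by
      have := f.le_opNorm (x - inc n (ev n x))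
      rw [Real.norm_eq_abs] at this
      calc |f (x - inc n (ev n x))| ≤ ‖f‖ * ‖x - inc n (ev n x)‖ := this
        _ ≤ M * β := by
          apply mul_le_mul (hMf f hf) h3 (norm_nonneg _) hMpos.le
    have h7 : |f (inc n (ev n x - g))| ≤ M * β := by
      have := f.le_opNorm (inc n (ev n x - g))
      rw [Real.norm_eq_abs, inc_norm] at this
      calc |f (inc n (ev n x - g))| ≤ ‖f‖ * ‖ev n x - g‖ := this
        _ ≤ M * β := by
          apply mul_le_mul (hMf f hf) h4 (norm_nonneg _) hMpos.le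
    have h8 : M * β ≤ ε / 4 := by
      calc M * β ≤ M * (ε / (4 * M)) := by gcongr
        _ = ε / 4 := by field_simp
    calc |f (x - inc n (ev n x)) + f (inc n (ev n x - g))|
        ≤ |f (x - inc n (ev n x))| + |f (inc n (ev n x - g))| := abs_add_le _ _
      _ < ε := by linarith

/-- There is a sequence of Banach spaces (Euclidean spaces of growing dimension) such that `0` is
an almost preserved extreme point of the unit ball of the `ℓ₁`-sum, while `0` is not one for the
unit ball of any of the factors. -/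
theorem result : ∃ (E : ℕ → Type) (_ : ∀ n, NormedAddCommGroup (E n))
    (_ : ∀ n, NormedSpace ℝ (E n)), (∀ n, CompleteSpace (E n)) ∧
    IsAPEP (Metric.closedBall (0 : lp E 1) 1) 0 ∧
    ∀ n : ℕ, ¬ IsAPEP (Metric.closedBall (0 : E n) 1) 0 :=
  ⟨E, inferInstance, inferInstance, fun _ => inferInstance, apep, not_apep⟩

end Pool.Agent.Results.MP_c12391_an.ZeroApep
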